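import Pool.Agent.N110.IM.Img
import Pool.Agent.N110.IM.Defs
import Pool.Agent.N110.IM.Main
import Pool.Agent.N110.RK.Main
import Pool.Agent.N110.RK.Stat
import Pool.Agent.N110.Can
import Pool.Agent.N110.NV.Fin
import Pool.Agent.P8H56.CP.Num

/-!
# The inequality of Campana and Peternell for pairs which are dominated by a pair with an abelian group
of birational self-maps of large growth rank

Let `X'` be a normal projective variety of dimension `n ≥ 1`, `Δ'` a `ℚ`-divisor on `X'`, and let
`ℤ ^ r` act on `X'` by birational self-maps which preserve `K_X' + Δ'`; if `Δ' = 0` and `X'` has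
canonical singularities then there is no condition. Let `s ≥ 1` be at most the growth rank of the
action. Let `(X, Δ)` be a pair which is dominated by `(X', Δ')` under a generically finite rational
map, which has nothing to do with the group: the pull back of `K_X + Δ` is at most `K_X' + Δ'`; if
`Δ = 0`, `X` has canonical singularities and `Δ' ≥ 0` then there is no condition on the map.

**Theorem.** Let `K_X + Δ ∼ A + B`, where `A` is any `ℚ`-divisor and `B` is pseudo-effective. Then
`κ(A) ≤ n - 1 - s`. If `κ(K_X + Δ) ≥ n - 1 - s`, or if `s = n - 1` and the irregularity of `X` is zero,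
then `κ(K_X + Δ) ≥ κ(A)`.

For `Δ = 0` the second part is the conjecture of Campana and Peternell for these varieties; for
`s = n - 1` and irregularity zero there is no further condition, and for example one obtains
nonvanishing for `A = 0`. Pseudo-effectivity is meant in the usual sense: `q B + H` is
`ℚ`-linearly equivalent to an effective divisor for all `q ≥ 1`, `H` being a hyperplane section.

## Proof

The numerical dimension of `K_X + Δ`, defined by positive intersection products, is at most
`n - 1 - s`, by the theory of `Pool/Agent/N110` (`MP_9a2ae6_ag.CoveredAbelianRank`,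
`MP_a58813_ag.DominatedAbelianRank`). If the sections `f 0, ..., f j` of `m A` have algebraically
independent ratios, and `ω` is a section of `m' (q B + H)`, then `ω ^ a * f i ^ b` are sections of
`M (K_X + Δ) + c H` with `c` small against `M`, and the degree of the map which is given by them and
by `n - j` pencils of hyperplane sections grows with `M ^ j`. So `j` is at most the numerical dimension
(`Pool/Agent/P8H56/CP/Num.lean`). Finally, if the numerical dimension and the irregularity are zero
then `K_X + Δ` has Kodaira dimension zero, if it is pseudo-effective (`NV.nonvanishing`).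
-/

set_option autoImplicit false

open FF Pool.Agent.W602.GT Pool.Agent.Y172 Pool.Agent.R887 Pool.Agent.N110
open Pool.Agent.P8H56.CP (IitakaGe)

/-- Let `X'` be a normal projective variety of dimension `n ≥ 1`, with generic point `y'`, and `Δ'`
a `ℚ`-divisor on `X'`. Let `ℤ ^ r` act by birational self-maps `f_v` of `X'` (commuting birational
self-maps `f_1, ..., f_r`), given by the automorphisms `φ v = f_v^*` of the function field. Suppose
that they preserve `K_X' + Δ'` (over the prime divisors of `X'` the divisor `f_v^* (K_X' + Δ')` is at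
most `K_X' + Δ'`), or that `Δ' = 0` and `X'` has canonical singularities (no condition on the maps
then). Let `s ≥ 1` be at most the growth rank of the action: the degrees `f_v^* H · H ^ (n - 1)` grow
subexponentially only along subspaces of `ℝ ^ r` of codimension at least `s`. For instance
`s = r ≥ 1` if the degrees are at least `c exp (δ |v|)` for some `c, δ > 0`.

Let `(X, Δ)` be a pair, `Δ ≥ 0` (for instance a klt pair), and `X' ⇢ X` a dominant rational map,
generically finite, given by the homomorphism `π` of the function fields. Suppose that the pull back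
of `K_X + Δ` is at most `K_X' + Δ'` over the prime divisors of `X'`, or that `Δ = 0`, `X` has canonical
singularities (for instance it is smooth) and `Δ' ≥ 0` (no condition on the map then). The map has
nothing to do with the maps `f_v`.

Let `D` be a `ℚ`-divisor on `X` such that `K_X + Δ - D` is pseudo-effective. Then `κ(D) ≤ n - 1 - s`. If
`κ(K_X + Δ) ≥ n - 1 - s`, or if `s = n - 1` and the irregularity of `X` is zero, then
`κ(K_X + Δ) ≥ κ(D)`. -/
theorem Pool.Agent.Results.MP_370cf3_ag.DominatedAbelianRank.result
    {K K' : Type} [Field K] [Algebra ℂ K] [Field K'] [Algebra ℂ K'] {N N' n : ℕ}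
    {y : Fin (N + 1) → K} {y' : Fin (N' + 1) → K'} (hy : NormalModel y) (hy' : NormalModel y')
    (hn : Algebra.trdeg ℂ K = n) (hn' : Algebra.trdeg ℂ K' = n) (hn0 : 0 < n)
    {Δ' : Place ℂ K' → ℚ} (hΔ' : {P | IsPrimeDivisor y' P ∧ Δ' P ≠ 0}.Finite) {r s : ℕ}
    (hs : 0 < s) {φ : (Fin r → ℤ) → (K' ≃ₐ[ℂ] K')} (hφ : ∀ u v, φ (u + v) = φ u * φ v)
    (hP : (∀ v, PullLe (φ v) y' n Δ') ∨ (Δ' = 0 ∧ Canonical y' n))
    (hrank : GrowthRankGe φ y' n s ∨ (s = r ∧ ExpGrowth φ y' n))
    {Δ : Place ℂ K → ℚ} (hΔ : Effective y Δ) (π : K →ₐ[ℂ] K')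
    (hπ : IM.ImagePullLe π y n Δ y' Δ' ∨
      (Δ = 0 ∧ Canonical y n ∧ ∀ P, IsPrimeDivisor y' P → 0 ≤ Δ' P)) :
    s < n ∧ ∀ D : Place ℂ K → ℚ, LogPsef y n (Δ - D) →
      (∀ j, IitakaGe y D j → j < n - s) ∧
      (KappaGe y n Δ (n - s - 1) ∨ (s + 1 = n ∧ IrregularityZero y) →
        ∀ j, IitakaGe y D j → KappaGe y n Δ j) := by
  have hP' : ∀ v, PullLe (φ v) y' n Δ' := by
    rcases hP with h | ⟨rfl, hcan'⟩
    · exact h
    · exact fun v => pullLe_canonical hy' hn' hcan' (φ v)
  have hrank' : GrowthRankGe φ y' n s := by
    rcases hrank with h | ⟨rfl, h⟩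
    · exact h
    · exact RK.growthRank_of_exp h
  obtain ⟨h1, h2'⟩ := RK.rank_main hy' hn' hn0 hΔ' hs hφ hP' hrank'
  have h2 : NumDimLt y n Δ (n - s) := by
    rcases hπ with h | ⟨rfl, hcan, hΔ0⟩
    · exact IM.numDimLt_img hy hy' hn hn' π h (Nat.sub_le _ _) h2'
    · exact IM.numDimLt_can hy hy' hn hn' hcan hΔ0 π (Nat.sub_le _ _) h2'
  refine ⟨h1, fun D hD => ?_⟩
  have key : ∀ j, IitakaGe y D j → j < n - s := by
    intro j hj
    by_contra hcon
    exact Pool.Agent.P8H56.CP.iitaka_lt hy hn (Nat.sub_le _ _) h2 hD (hj.mono (by omega))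
  refine ⟨key, fun h j hj => ?_⟩
  rcases h with h | ⟨h3, hq⟩
  · exact Pool.Agent.P8H56.CP.kappaGe_mono (by have := key j hj; omega) h
  · have hj0 : j = 0 := by
      have := key j hj
      omega
    subst hj0
    rw [show n - s = 1 by omega] at h2
    obtain ⟨m, hm, ω, hω0, hω⟩ := NV.nonvanishing hy hn hn0 hΔ.2
      (Pool.Agent.P8H56.CP.psef_add hy hD hj) h2 hq
    obtain ⟨E, hE⟩ : ∃ E, ω E ≠ 0 := by
      by_contra hc
      push Not at hc
      exact hω0 (funext hc)
    exact ⟨m, hm, fun _ => ω, E, fun _ => hω, hE, by
      rw [algebraicIndependent_empty_type_iff]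
      exact (algebraMap ℂ K).injective⟩
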