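import Pool.Agent.Y172.R10

/-!
# The inequality of Campana and Peternell for linear systems with high multiplicities outside of the
effective part

Let `(X, Δ)` be a projective log canonical pair of dimension `n` (for instance a klt pair, or a
manifold with `Δ = 0`), and let `K_X + Δ` be the sum of an effective divisor `Γ` and a pseudo-effective
divisor, as in the conjecture of Campana and Peternell. Suppose that a finite cover `Z → X`, ramified
anywhere, has a linear system `V` of rational functions with high multiplicities: at the prime divisors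
of `Z` which are not over the support of `Γ`, and not over the diminished base locus of `K_X + Δ`,
either all the members `φ i` of a finite set which spans `V` have the same order, or the orders of two
of them in the same indecomposable summand of `V` differ by at least `s e (1 - Δ_P)`, where
`2 s > (v + 3 - c) (k + 1) (k + 2)`, `v = dim V - 1`, `c` is the number of the indecomposable summands of
`V`, and `k` is the codimension of the image of `V` in `P^v`. Suppose moreover that `Z` is very affine
over the image of `V`, outside of `Γ` and of the diminished base locus: the function field of `Z` is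
generated by functions `t j`, which have no zeros and poles there along the divisors which dominate the
image, and elements which are algebraic over the function field of the image. There is no condition on
the linear system, on the ramification and on the functions `t j` along `Γ`.

**Theorem.** `κ(K_X + Δ) ≥ κ(Γ)`. More generally, `κ(K_X + Δ') ≥ κ(G)` for all divisors `G` whose
positive part has its support in the support of `Γ`, and for all `Δ'` which are equal to `Δ` outside of
the support of `Γ` and larger than `Δ - Γ` along `Γ`.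

Here `κ` is given by the literal definition: the largest `k` such that `h⁰ (m D) / m ^ k` has a positive
upper limit, over the `m` such that `m D` is integral. So this is a positive answer to Q1 for the manifolds
`X` and the effective divisors `A = Γ` with a linear system whose multiplicities are high outside
of `A`. If `V` maps `Z` generically finitely to its image then no functions `t j` are needed; in
general `κ(K_X + Δ)` may be any number between the dimension of the image of `V` and `n`.

## Proof

By the theory of `Pool/Agent/Y172` (see `MP_badc2d_ag.HighMultiplicityAbundance`, where the equality of the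
Kodaira dimension and of the numerical dimension is proved for klt pairs of this kind) the products of
Wronskians of the `φ i` and of logarithmic forms in the `t j` give sections of `m (K_X + Δ + u Γ)`, and the
traces of sections to the image of `V` bound the number of the sections of `m (K_X + Δ) + A`. Since
`K_X + Δ - Γ` is pseudo-effective one can get rid of the poles along `Γ`. For `κ(G)` one multiplies the
sections of `m G` with sections of `m u (K_X + Δ - Γ) + A` and with the ones which one has already.
-/

set_option autoImplicit false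

open FF Pool.Agent.W602.GT Pool.Agent.Y172

namespace Pool.Agent.Results.MP_370cf3_ag.HighMultiplicities

/-- `K_X + D` is pseudo-effective, tested with the effective divisor `A`: the divisor
`m (K_X + D) + A` has a section `≠ 0` for arbitrarily large `m`. -/
def PseudoEffective {K : Type} [Field K] [Algebra ℂ K] {N : ℕ} (y : Fin (N + 1) → K) (n : ℕ)
    (D A : Place ℂ K → ℚ) : Prop :=
  ∀ m₁ : ℕ, ∃ m : ℕ, m₁ ≤ m ∧ ∃ s, IsSection y n m (m • D + A) s ∧ s ≠ 0

/-- The prime divisor `P` is negligible: it is in the support of `Γ`, or in the base locus of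
`m (K_X + Δ + η A)` for all `m ≥ 1` and all small `η ≥ 0`. -/
def Negligible {K : Type} [Field K] [Algebra ℂ K] {N : ℕ} (y : Fin (N + 1) → K) (n : ℕ)
    (Δ Γ A : Place ℂ K → ℚ) (P : Place ℂ K) : Prop :=
  Γ P ≠ 0 ∨ Diminished y n Δ A P

/-- The field generated by the quotients of the members of `V`: the function field of the image of
the rational map given by the linear system `V`. -/
noncomputable def quotientField {L : Type} [Field L] [Algebra ℂ L] (V : Submodule ℂ L) :
    IntermediateField ℂ L :=
  IntermediateField.adjoin ℂ {z : L | ∃ f ∈ V, ∃ g ∈ V, z = f / g}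

/-- `V` has a basis of `v + 1` elements, divided into `c` nonempty groups, such that `φ i` is a
linear combination of the elements of the group `γ i`: `V` is the direct sum of `c` nonzero
subspaces, and `φ i` is in the subspace with the number `γ i`. -/
def Decomposition {L : Type} [Field L] [Algebra ℂ L] (v : ℕ) {q c : ℕ} (V : Submodule ℂ L)
    (φ : Fin q → L) (γ : Fin q → Fin c) : Prop :=
  ∃ (x : Fin (v + 1) → L) (g : Fin (v + 1) → Fin c), LinearIndependent ℂ x ∧
    Submodule.span ℂ (Set.range x) = V ∧ Function.Surjective g ∧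
    ∀ i, φ i ∈ Submodule.span ℂ (x '' {a | g a = γ i})

/-- The functions `φ i` all have the same order at `Q`. -/
def Level {L : Type} [Field L] [Algebra ℂ L] {q : ℕ} (φ : Fin q → L) (Q : Place ℂ L) : Prop :=
  ∀ i i', Q.ord (φ i) = Q.ord (φ i')

/-- In each group of the functions `φ i` the least order at `Q` of all of them is attained. -/
def Balanced {L : Type} [Field L] [Algebra ℂ L] {q c : ℕ} (φ : Fin q → L) (γ : Fin q → Fin c)
    (Q : Place ℂ L) : Prop :=
  ∃ a, (∀ i, a ≤ Q.ord (φ i)) ∧ ∀ j, ∃ i, γ i = j ∧ Q.ord (φ i) = a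

/-- The place `Q` is over the generic point of the variety with function field `F`. -/
def Horizontal {L : Type} [Field L] [Algebra ℂ L] (F : IntermediateField ℂ L) (Q : Place ℂ L) :
    Prop :=
  ∀ f ∈ F, f ≠ 0 → Q.ord f = 0

/-- The `ℚ`-divisor `Δ'` is equal to `Δ` outside of the support of `Γ`, and larger than `Δ - Γ` along
all components of `Γ`. -/
def Above {K : Type} [Field K] [Algebra ℂ K] {N : ℕ} (y : Fin (N + 1) → K)
    (Δ Γ Δ' : Place ℂ K → ℚ) : Prop :=
  ∀ P, IsPrimeDivisor y P → (Γ P = 0 → Δ' P = Δ P) ∧ (Γ P ≠ 0 → Δ P - Γ P < Δ' P)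

/-- **The inequality of Campana and Peternell.** Let `(X, Δ)` be a projective log canonical pair of
dimension `n` with function field `K`, `Γ` and `A` effective divisors on `X` such that `K_X + Δ - Γ` is
pseudo-effective, and `Z → X` a finite cover with function field `L`. Let `V` be a linear system of
dimension `v` on `Z`, spanned by nonzero members `φ i`, and let `c` be the largest number such that `V`
is a direct sum of `c` nonzero subspaces which together contain all `φ i`. Let `W` be the image of
`V`, `d = v - k` its dimension, and let `L` be generated by functions `t j` and elements which are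
algebraic over the function field of `W`. Let `2 s > (v + 3 - c) (k + 1) (k + 2)`, or let `c = 1`, let
`v + 3` of the `φ i` be pairwise not proportional, and `2 s > (v + 1) (k + 1) (k + 2)`. Assume for all
prime divisors `P` of `X` which are not negligible and all prime divisors `Q` of `Z` over `P`, with
ramification index `e`: if the `φ i` all have the same order at `Q`, then `e (1 - Δ P) ≤ 1`; otherwise,
there are two `φ i` in the same summand of `V` whose orders differ by at least `s e (1 - Δ P)`; if `Q`
dominates `W`, then no `t j` has a zero or pole at `Q`, or `Δ P ≥ 1`; and if `Δ P ≥ 1`, then the least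
order of the `φ i` is attained in each summand. (The last condition and the exception in the one
before are void if `(X, Δ)` is klt.)

Then `κ(G) ≤ κ(K_X + Δ)` for all divisors `G` whose positive part has its support in the support of
`Γ`, for instance for `G = Γ`; and `κ(G) ≤ κ(K_X + Δ')` for all `Δ'` which are equal to `Δ` outside of
`Γ` and larger than `Δ - Γ` along `Γ`. -/
theorem result {K L : Type} [Field K] [Field L] [Algebra ℂ K] [Algebra ℂ L] [Algebra K L]
    [IsScalarTower ℂ K L] [FiniteDimensional K L] {N n v d k q c r : ℕ} {y : Fin (N + 1) → K}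
    (hy : NormalModel y) (hn : Algebra.trdeg ℂ K = n)
    {Δ : Place ℂ K → ℚ} (hΔ : Effective y Δ) (hLC : LogCanonical y n Δ)
    {Γ A : Place ℂ K → ℚ} (hΓ : Effective y Γ) (hA : Effective y A)
    (hps : PseudoEffective y n (Δ - Γ) A)
    {V : Submodule ℂ L} {φ : Fin q → L} (hφ0 : ∀ i, φ i ≠ 0)
    (hφ : Submodule.span ℂ (Set.range φ) = V) {γ : Fin q → Fin c} (hγ : Decomposition v V φ γ)
    (hc : ∀ γ' : Fin q → Fin (c + 1), ¬ Decomposition v V φ γ')
    (hd : Algebra.trdeg ℂ (quotientField V) = d) (hk : d + k = v)
    {s : ℝ} (hs : ((v + 3 - c : ℕ) : ℝ) * ((k + 1) * (k + 2)) < 2 * s ∨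
      (c = 1 ∧ (∃ τ : Fin (v + 3) → Fin q, ∀ i j, i ≠ j → ∀ t : ℂ, φ (τ i) ≠ t • φ (τ j)) ∧
        ((v + 1 : ℕ) : ℝ) * ((k + 1) * (k + 2)) < 2 * s))
    {t : Fin r → L} (ht : ∀ j, t j ≠ 0)
    (hgen : IntermediateField.adjoin ℂ
      ({z : L | IsAlgebraic (quotientField V) z} ∪ Set.range t) = ⊤)
    (h : ∀ P, IsPrimeDivisor y P → ¬ Negligible y n Δ Γ A P →
      ∀ (Q : Place ℂ L) (e : ℕ), Over Q P e →
        (Level φ Q → (e : ℚ) * (1 - Δ P) ≤ 1) ∧
        (¬ Level φ Q → ∃ i i', γ i' = γ i ∧
          s * (e * (1 - Δ P)) ≤ ((Q.ord (φ i) - Q.ord (φ i') : ℤ) : ℝ)) ∧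
        (Horizontal (quotientField V) Q → (∀ j, Q.ord (t j) = 0) ∨ 1 ≤ Δ P) ∧
        (1 ≤ Δ P → Balanced φ γ Q)) :
    (∀ G : Place ℂ K → ℚ, (∀ P, IsPrimeDivisor y P → Γ P = 0 → G P ≤ 0) →
      iitakaDim y n G ≤ kodairaDim y n Δ) ∧
    ∀ G : Place ℂ K → ℚ, (∀ P, IsPrimeDivisor y P → Γ P = 0 → G P ≤ 0) →
      ∀ Δ' : Place ℂ K → ℚ, Above y Δ Γ Δ' → iitakaDim y n G ≤ kodairaDim y n Δ' := by
  have hneg : ∀ P, Γ P = 0 → ¬ Diminished y n Δ A P → ¬ Negligible y n Δ Γ A P := by
    rintro P h1 h2 (h3 | h3)
    · exact h3 h1
    · exact h2 h3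
  have hcv : c ≤ v + 1 := by
    obtain ⟨-, g, -, -, hg, -⟩ := hγ
    have h1 := Fintype.card_le_of_surjective g hg
    rw [Fintype.card_fin, Fintype.card_fin] at h1
    exact h1
  obtain ⟨R, hR, hRs⟩ : ∃ R : ℕ, (R + c = v + 3 ∨
      (c = 1 ∧ (∃ τ : Fin (v + 3) → Fin q, ∀ i j, i ≠ j → ∀ t : ℂ, φ (τ i) ≠ t • φ (τ j)) ∧
        R = v + 1)) ∧ (R : ℝ) * ((k + 1) * (k + 2)) < 2 * s := by
    rcases hs with h1 | ⟨h1, h2, h3⟩
    · exact ⟨v + 3 - c, Or.inl (by omega), h1⟩
    · exact ⟨v + 1, Or.inr ⟨h1, h2, rfl⟩, h3⟩
  obtain ⟨κ, -, h2, h3⟩ := Pool.Agent.Y172.main7 (L := L) (R := R) hy hn hΔ hLC hΓ hA hps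
    hφ0 hφ hγ hc hd hk hR hRs
    (fun P hP h1 h2 Q e hQ hv => (h P hP (hneg P h1 h2) Q e hQ).2.1 fun hl => by
      obtain ⟨i, i', hi⟩ := hv
      exact hi (hl i i'))
    (fun P hP h1 h2 h3 Q e hQ => (h P hP (hneg P h1 h2) Q e hQ).2.2.2 h3) ht hgen
    (fun P hP h1 h2 Q e hQ hv ⟨j, hj⟩ =>
      ((h P hP (hneg P h1 h2) Q e hQ).2.2.1 hv).resolve_left fun h4 => hj (h4 j))
    fun P hP h1 h2 Q e hQ => (h P hP (hneg P h1 h2) Q e hQ).1
  have key : ∀ G : Place ℂ K → ℚ, (∀ P, IsPrimeDivisor y P → Γ P = 0 → G P ≤ 0) →
      ∀ Δ' : Place ℂ K → ℚ, Above y Δ Γ Δ' → iitakaDim y n G ≤ kodairaDim y n Δ' := by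
    intro G hG Δ' hΔ'
    rw [(h2 Δ' (fun P hP => (hΔ' P hP).1) fun P hP => (hΔ' P hP).2).1]
    exact h3 G hG
  refine ⟨fun G hG => key G hG Δ fun P hP => ⟨fun _ => rfl, fun hP0 => ?_⟩, key⟩
  have h1 : 0 < Γ P := lt_of_le_of_ne (hΓ.1 P hP) (Ne.symm hP0)
  linarith

end Pool.Agent.Results.MP_370cf3_ag.HighMultiplicities
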