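import Pool.Agent.P8H56.CP.Bir
import Pool.Agent.Y169.TH.Mak

/-!
# The conjecture of Campana and Peternell for abelian covers of projective space branched along
normal crossing hypersurfaces

Let `F k`, `k = 0, ..., n`, be forms of degrees `d k` in `n + 1` variables whose zero sets in the
projective `n`-space are smooth hypersurfaces with normal crossings, and let `X` be a projective
manifold which is birational to an abelian cover of the projective space which is branched only along
these hypersurfaces: the function field `K` of `X` is generated by the affine coordinates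
`x (b + 1) / x 0` and by roots `z j`, `z j ^ (m j) = ∏ k, (F k (x) / x 0 ^ (d k)) ^ (a j k)`, where
`m j` divides `∑ k, a j k * d k`. (Covers which are branched along fewer hypersurfaces are included:
add general hyperplanes, with `a j k = 0`.)

**Theorem.** Let `A` be a divisor on `X` (or on a blow-up of `X`) and `r ≥ 1` such that `r K_X - A` is
pseudo-effective, and `κ(A) ≥ 0`. Then `κ(X) ≥ κ(A)`. Moreover `κ(A)` is at most the dimension of
the polyhedron of the exponents `y` with `∑ k, d k * y k = ∑ k, (d k - 1)` and `∑ k, v k * y k ≥ 1` for all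
vectors `v ≠ 0` of nonnegative integers, not all positive, with `m j ∣ ∑ k, a j k * v k` for all `j` (which
is not empty then), and this is equal to `κ(X)`.

So Q1 has a positive answer for all these `X`. The covers have quotient singularities, in general
not canonical ones, so that `K_X` is in general not the pullback of the canonical class of the cover,
and `κ(X)` may be any number between `-∞` and `n`: for the surface `z ^ 3 = F 0 * F 1 ^ 2 * F 2`
with `d = (1, 3, 2)` one has `κ(X) = 1`. There is no condition on the degrees, on the exponents and on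
the Galois group.

The Kodaira and Iitaka dimensions are given by the sections of the multiples of `K_X` and of `A`:
functions of `n = dim X` rational vector fields, and rational functions, with a condition at all
divisorial places of `K`, so that they are the sections on every smooth projective model of `K`.

## Proof

By `Pool.Agent.Y169.TH.main` (see `MP_97d78d_ag.NormalCrossingCovers`), `K_X` is pseudo-effective if and
only if the polyhedron is not empty, and then `κ(X) = ν(X)` is its dimension. If `κ(A) ≥ 0` then `K_X` is
pseudo-effective. The products of the sections of the multiples of `A` with sections of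
`j (r K_X - A) + H` are sections of `j r K_X + H`, so `κ(A) ≤ ν(X)` (`Pool/Agent/P8H56/CP/Bir.lean`).
-/

set_option autoImplicit false

open FF MvPolynomial Pool.Agent.W602.GT
open Pool.Agent.P8H56.CP (DivKodGe PsefRest)

namespace Pool.Agent.Results.MP_370cf3_ag.NormalCrossingCovers

/-- The hypersurfaces `F k = 0` have normal crossings: at every point of the projective space the
gradients of the forms `F k` which vanish at this point are linearly independent. -/
def NormalCrossings {n : ℕ} (F : Fin (n + 1) → MvPolynomial (Fin (n + 1)) ℂ) : Prop :=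
  ∀ x : Fin (n + 1) → ℂ, x ≠ 0 → LinearIndependent ℂ
    fun (k : {k // eval x (F k) = 0}) (l : Fin (n + 1)) => eval x (pderiv l (F k.1))

/-- The affine coordinates of the projective space. -/
noncomputable def affine {n : ℕ} {K : Type} [Field K] (x : Fin (n + 1) → K) (b : Fin n) : K :=
  x b.succ / x 0

section

variable {n R : ℕ}

/-- The multiplicities which satisfy the divisibility conditions. -/
def Admissible (m : Fin R → ℕ) (a : Fin R → Fin (n + 1) → ℕ) (v : Fin (n + 1) → ℕ) : Prop :=
  v ≠ 0 ∧ (∃ k, v k = 0) ∧ ∀ j, m j ∣ ∑ k, a j k * v k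

/-- The exponents of the regular forms. -/
def polyhedron (m : Fin R → ℕ) (a : Fin R → Fin (n + 1) → ℕ) (d : Fin (n + 1) → ℕ) :
    Set (Fin (n + 1) → ℚ) :=
  {y | ∑ k, (d k : ℚ) * y k = ∑ k, ((d k : ℚ) - 1) ∧
    ∀ v, Admissible m a v → 1 ≤ ∑ k, (v k : ℚ) * y k}

end

/-- `ω` is a section of `m K_X`: a rational section of the `m`-th power of the canonical bundle
(`IsPluri`: a function of `N` rational vector fields which is multiplied by `det B ^ m` under a
linear substitution `B`) which is regular on the vector fields which are regular at `P`, for all prime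
divisors `P` over `X` (all divisorial places `P` of `K`). -/
def IsSection {K : Type} [Field K] [Algebra ℂ K] (N m : ℕ)
    (ω : (Fin N → Derivation ℂ K K) → K) : Prop :=
  IsPluri m ω ∧ ∀ P : Place ℂ K, Divisorial N P → ∀ D : Fin N → Derivation ℂ K K,
    (∀ c, DerReg P (D c)) → ω D = 0 ∨ 0 ≤ P.ord (ω D)

/-- `κ (X) ≥ h`: for some `m > 0` there are sections of `m K_X` whose ratios contain `h`
algebraically independent functions (for `h = 0`: there is a nonzero section). -/
def KodairaGe (N : ℕ) (K : Type) [Field K] [Algebra ℂ K] (h : ℕ) : Prop :=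
  ∃ m : ℕ, 0 < m ∧ ∃ ω : Fin (h + 1) → (Fin N → Derivation ℂ K K) → K,
    (∀ b, IsSection N m (ω b)) ∧
    ∃ D, ω 0 D ≠ 0 ∧ AlgebraicIndependent ℂ (fun b : Fin h => ω b.succ D / ω 0 D)

/-- **The conjecture of Campana and Peternell.** Let `X` be a projective manifold birational to an
abelian cover of the projective `n`-space which is branched along `n + 1` hypersurfaces `F k = 0` with
normal crossings, and let `K` be the function field of `X`. Let `A` be a divisor on `X` or on a
blow-up, with the multiplicity `α v` along the prime divisor `v`, such that `r K_X - A` is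
pseudo-effective for some `r ≥ 1`. If `κ(A) ≥ l` then `κ(X) ≥ l`, and `l` is at most the dimension of the
polyhedron, which is not empty. -/
theorem result (n R : ℕ) (hn : 1 ≤ n) (d : Fin (n + 1) → ℕ) (hd : ∀ k, 1 ≤ d k)
    (F : Fin (n + 1) → MvPolynomial (Fin (n + 1)) ℂ) (hF : ∀ k, (F k).IsHomogeneous (d k))
    (hs : NormalCrossings F) (m : Fin R → ℕ) (hm : ∀ j, 1 ≤ m j) (a : Fin R → Fin (n + 1) → ℕ)
    (hdiv : ∀ j, m j ∣ ∑ k, a j k * d k)
    (K : Type) [Field K] [Algebra ℂ K] (x : Fin (n + 1) → K) (hx0 : x 0 ≠ 0)
    (hbas : IsTranscendenceBasis ℂ (affine x)) (z : Fin R → K)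
    (hz : ∀ j, z j ^ m j = ∏ k, (aeval x (F k) / x 0 ^ d k) ^ a j k)
    (hgen : IntermediateField.adjoin ℂ (Set.range (affine x) ∪ Set.range z) = ⊤)
    (r : ℕ) (hr : 1 ≤ r) (α : Place ℂ K → ℤ) (hps : PsefRest K n r α) (l : ℕ)
    (hA : DivKodGe K n α l) :
    KodairaGe n K l ∧ (polyhedron m a d).Nonempty ∧
      l ≤ Module.finrank ℚ (vectorSpan ℚ (polyhedron m a d)) := by
  obtain ⟨e, rfl⟩ : ∃ e, n = e + 1 := ⟨n - 1, by omega⟩
  have hp : polyhedron m a d = Pool.Agent.Y169.TH.PiA m a d := by
    unfold polyhedron Pool.Agent.Y169.TH.PiA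
    rw [Finset.sum_sub_distrib]
    simp only [Finset.sum_const, Finset.card_univ, Fintype.card_fin, nsmul_eq_mul, mul_one]
    rfl
  rw [hp]
  obtain ⟨h1, -, h2⟩ := Pool.Agent.Y169.TH.main hx0 hbas hd hF hs hm hz hdiv hgen
  have hA0 : DivKodGe K (e + 1) α 0 := by
    obtain ⟨m', hm', f, hf0, hf, -⟩ := hA
    exact ⟨m', hm', fun _ => f 0, hf0, fun _ => hf 0, by
      rw [algebraicIndependent_empty_type_iff]
      exact (algebraMap ℂ K).injective⟩
  have hne := h1.1 (Pool.Agent.P8H56.CP.apsef_of_rest hr hps hA0)
  obtain ⟨h3, h4⟩ := h2 hne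
  have hle := Pool.Agent.P8H56.CP.le_of_num hr h4 hps hA
  refine ⟨?_, hne, hle⟩
  obtain ⟨m', hm', ω, hω, D, hD, hind⟩ := h3
  refine ⟨m', hm', fun i => ω (Fin.castLE (by omega) i), fun i => ⟨(hω _).1,
    fun P hP D hD => ?_⟩, D, hD, ?_⟩
  · rcases (hω (Fin.castLE (by omega) i)).2 P hP D hD with h5 | ⟨s, hs', -, h6⟩
    · exact Or.inl h5
    · right
      rw [Finset.mem_singleton] at hs'
      rw [hs', P.ord_one, mul_zero] at h6
      exact h6
  · exact hind.comp (Fin.castLE hle) (Fin.castLE_injective hle)

end Pool.Agent.Results.MP_370cf3_ag.NormalCrossingCovers
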