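import Pool.Agent.N162.GP.Sep
import Pool.Agent.N162.GQ.Facts
import Pool.Agent.N162.GQ.Factor
import Pool.Agent.N162.GQ.Deg
import Pool.Agent.N145.SX.MFin
import Pool.Agent.P8H56.CP.Weak

/-!
# The conjecture of Campana and Peternell for the varieties dominated by the product of several
varieties and a curve

Let `V_0, ..., V_(k-1)` be projective varieties of any dimensions `m_i`, let `C` be a smooth projective
curve of any genus, and let `V = V_0 × ... × V_(k-1) × C ⇢ W` be a dominant rational map of finite
degree to a variety `W`. It need not be related to the product structure, and it need not be the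
quotient by a group. Let `W_i` be the image of `V` in `W × V_0 × ... × V_(i-1)`, and let `d_i` be the
degree over `W_i` of the image of `V` in `W_i × V_i` (`deg`): for example `d_0` is the number of
different points of `V_0` below a general fibre of `V ⇢ W`. The product of the `d_i` is at most the
degree of `V ⇢ W`. Each `V_i` is one of the following:

* a variety whose canonical forms separate `2 d_i` general points: for some nonempty open subset any
  `2 d_i` different points of it impose independent conditions on `H⁰(V_i, K)`, for example a smooth
  hypersurface of degree at least `m_i + 1 + 2 d_i` in projective space, or more generally a variety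
  such that `K - (2 d_i - 1) H` is effective for a divisor `H` which defines a birational map to a
  projective space;
* a smooth complete intersection of codimension at least two in a projective space with canonical
  bundle `O(m)`, or more generally a variety in projective `(M + 1)`-space which is cut out by
  equations of degree at most `D` and has the regular canonical forms `P(x) ω₀` for all forms `P` of
  degree `m` (`LowDegree`), where `m + 2 - N ≥ D`, `m ≥ 7 N + 4`, `(M + 1) N < m + M + 2` and
  `2 d_i < (N + 1) (m + 2 - N)` for some `N`;
* a curve of gonality greater than `2 d_i`.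

**Theorem.** Let `X` be a smooth projective variety birational to `W`, let `A` be a divisor on `X` (or on
a blow-up of `X`) and `r ≥ 1` such that `r K_X - A` is pseudo-effective. Then `κ(X) ≥ κ(A)`. Moreover the
image of the canonical map of `X`, given by `H⁰(X, K_X)`, has dimension at least `κ(A)`.

So Q1 has a positive answer for all these `X`. The starting result `CompleteIntersectionTimesCurve` is
the case `k = 1` for the varieties with `LowDegree`, without the statement on the canonical map, and with
a stronger notion of pseudo-effectivity: here `r K_X - A` is pseudo-effective if for some divisor `H` and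
all `M ≥ 1` a multiple of `M (r K_X - A) + H` is effective (`PsefDiff`). There is no condition on the
irregularity, and the Kodaira dimension of `X` may be `-∞`, `dim X - 1` or `dim X`.

## Proof

If `κ(A) ≥ 0` then `K_X` is pseudo-effective. By the theory of helper145 (`MP_97d78d_ag.ProductsOfVarieties`)
and of helper162 (`MP_501976_ag.SweptOutByEllipticCurves`) `κ(X) ≥ dim X - 1`: the traces on `W` of products
of canonical forms on the factors are canonical forms, and the factors are separated one after the
other. This works for mixed factors of the three types, because only the separation of points is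
used. Finally, if `κ(A) = dim X` then `κ(X) = dim X` by Kodaira's lemma (`cp_of_diff`), and the Iitaka
dimension is attained by the canonical forms.
-/

set_option autoImplicit false
set_option linter.overlappingInstances false
set_option maxHeartbeats 4000000
set_option synthInstance.maxHeartbeats 400000

open FF Module Pool.Agent Pool.Agent.W602.GT Pool.Agent.N162.BC Pool.Agent.N162.GP
open Pool.Agent.N162.GQ (Factor Img deg)
open Pool.Agent.P8H56.CP (DivKodGe PsefDiff)

namespace Pool.Agent.Results.MP_370cf3_ag.ProductsTimesCurve

/-- **The canonical forms separate `r` general points.** `E` is the function field of a variety `X` of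
dimension `m`, and `D` a rational frame of the tangent bundle. The embeddings `σ : E → Ω` are the
generic points of `X` with coordinates in the field `Ω`. At most `r` different such points impose
independent conditions on the canonical forms `ω` which are regular at all prime divisors: if
`∑ c σ * σ (ω D) = 0` for all `ω` then all the coefficients `c σ` are zero. -/
def SeparatesPoints (E : Type) [Field E] [Algebra ℂ E] (m r : ℕ) : Prop :=
  ∀ D : Fin m → Derivation ℂ E E, LinearIndependent E D →
    ∀ (Ω : Type) [Field Ω] [Algebra ℂ Ω] [IsAlgClosed Ω] (A : Finset (E →ₐ[ℂ] Ω)), A.card ≤ r →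
    ∀ c : (E →ₐ[ℂ] Ω) → Ω,
    (∀ ω : (Fin m → Derivation ℂ E E) → E, IsPluri 1 ω →
      (∀ P : Place ℂ E, Divisorial m P → RegAt P ω) → ∑ σ ∈ A, c σ * σ (ω D) = 0) →
    ∀ σ ∈ A, c σ = 0

/-- The image of the canonical map of the varieties with function field `L`, of dimension `w`, has
dimension at least `j`: there are canonical forms, regular at all prime divisors, with `j`
algebraically independent ratios. (`KodGe` is the same for pluricanonical forms of some weight.) -/
def CanonicalImageDimGe (L : Type) [Field L] [Algebra ℂ L] (w j : ℕ) : Prop :=
  ∃ ω : Fin (j + 1) → (Fin w → Derivation ℂ L L) → L,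
    (∀ i, IsPluri 1 (ω i) ∧ ∀ P : Place ℂ L, Divisorial w P → RegAt P (ω i)) ∧
    ∃ D, ω 0 D ≠ 0 ∧ AlgebraicIndependent ℂ (fun i : Fin j => ω i.succ D / ω 0 D)

/-- **The conjecture of Campana and Peternell for the varieties dominated by products of varieties
and a curve.** (1) A smooth complete intersection `V` of dimension `n ≥ 1` of hypersurfaces of the degrees
`d i ≤ D` in projective `(M + 1)`-space is cut out by equations of degree at most `D`, and the forms of
degree `m = ∑ d i - M - 2` give regular canonical forms (`LowDegree`). (2) Let `K` be the function field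
of `V = V_0 × ... × V_(k-1) × C`: the compositum of the function fields `F i` of the varieties `V_i`,
`i < k`, of dimension `m i`, and of the function field `F k` of a curve `C`, of transcendence degree
`∑ m i + 1`. Let `L ⊆ K` be the function field of a variety `W` such that the extension is finite, and
let `deg F L i` be the degree over the image `W_i` of `V` in `W × V_0 × ... × V_(i-1)` of the image of `V`
in `W_i × V_i`. Each `V_i` has canonical forms which separate `2 * deg F L i` general points, or is a
`Factor` with bound `g > 2 * deg F L i`: it satisfies `LowDegree` with `g ≤ (N + 1) (m + 2 - N)`,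
`m ≥ 7 N + 4`, `(M + 1) N < m + M + 2`, `D + N ≤ m + 2` for some `N`, or is a curve of gonality at least
`g`. Let `a` be the function of the multiplicities of a divisor `A` along the prime divisors over
`W`. If `r K - A` is pseudo-effective for some `r ≥ 1` and `κ(A) ≥ l` then `κ(W) ≥ l`, and the image of
the canonical map of `W` has dimension at least `l`. -/
theorem result :
    (∀ (M n q m D : ℕ) (E : Type) [Field E] [Algebra ℂ E]
      (F : Fin q → MvPolynomial (Fin (M + 2)) ℂ) (d : Fin q → ℕ) (x : Fin (M + 2) → E),
      SmoothCI F d x → 1 ≤ n → Algebra.trdeg ℂ E = n → n + q = M + 1 → m + M + 2 = ∑ i, d i →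
      (∀ i, d i ≤ D) → 1 ≤ D → LowDegree n m D x) ∧
    ∀ (k : ℕ) (m : Fin k → ℕ) (K : Type) [Field K] [Algebra ℂ K] [Algebra.EssFiniteType ℂ K]
      (F : Fin (k + 1) → IntermediateField ℂ K) [∀ i, Algebra.EssFiniteType ℂ (F i)]
      [IsFF ℂ (F (Fin.last k))],
      (⨆ i, F i) = ⊤ → (∀ i : Fin k, Algebra.trdeg ℂ (F i.castSucc) = m i) →
      Algebra.trdeg ℂ K = (∑ i, m i + 1 : ℕ) →
      ∀ (L : Type) [Field L] [Algebra ℂ L] [Algebra L K] [IsScalarTower ℂ L K]
        [FiniteDimensional L K],
        (∀ i : Fin k, SeparatesPoints (F i.castSucc) (m i) (2 * deg F L i.castSucc) ∨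
          ∃ g, Factor (F i.castSucc) (m i) g ∧ 2 * deg F L i.castSucc < g) →
        ∀ (r : ℕ) (a : Place ℂ L → ℤ), 1 ≤ r → PsefDiff L (∑ i, m i + 1) r a →
          ∀ l : ℕ, DivKodGe L (∑ i, m i + 1) a l →
            KodGe ℂ L (∑ i, m i + 1) (fun _ => False) l ∧
            CanonicalImageDimGe L (∑ i, m i + 1) l := by
  refine ⟨fun M n q m D E _ _ F d x h hn hE hq hm hD hD1 =>
    lowDegree_of_smoothCI fCIC fCIA h hn hE hq hm hD hD1, ?_⟩
  intro k m K _ _ _ F _ _ hF hm hK L _ _ _ _ _ hX r a hr ha l hl
  have hL : Algebra.trdeg ℂ L = (∑ i, m i + 1 : ℕ) :=
    Pool.Agent.Y184.NT.trdeg_below (K := K) hK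
  choose x D hx hD using fun i : Fin k => Pool.Agent.Y172.exists_crd (hm i)
  have hg : ∀ i : Fin k, ∃ g : ℕ, N145.SX.SepX (x i) (fun _ => False) g ∧
      2 * deg F L i.castSucc < g := by
    intro i
    rcases hX i with h | ⟨g, hg, hlt⟩
    · exact ⟨2 * deg F L i.castSucc + 1, N145.SX.sepX_of' (hx i) (hD i)
        fun Ω _ _ _ A hA c hc => h (D i) (N145.SX.dual_indep (hD i)) Ω A hA c hc,
        Nat.lt_succ_self _⟩
    · exact ⟨g, N162.GQ.sep_factor N162.GQ.fGON hg (fun _ => False) (x i) (hx i), hlt⟩
  choose g hg hlt using hg
  have h := N145.SX.multi_all (L := L) hF hm hK hx (g := g) hg (fun i => by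
    have h1 := hlt i
    unfold deg Img at h1
    rw [N145.SX.mf_eq]
    exact h1)
  have h1 := Pool.Agent.P8H56.CP.cp_of_diff hL hr (fun hp => (h.1.out 0 1).1 hp) ha hl
  exact ⟨h1, (h.2.2 l).1 h1⟩

end Pool.Agent.Results.MP_370cf3_ag.ProductsTimesCurve
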